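import Mathlib

set_option autoImplicit false

namespace Pool.Agent.Results.MP_684e05_nt.SizeTwo

/-- The family `a` enumerates a perfect `s`-spanning set of size `m` of the abelian group `G`: its
members are distinct, and every element of `G` is `∑ l i • a i` for exactly one integer vector `l`
with `∑ |l i| ≤ s`. -/
def IsPerfect {G : Type*} [AddCommGroup G] {m : ℕ} (s : ℕ) (a : Fin m → G) : Prop :=
  Function.Injective a ∧
    ∀ g : G, ∃! l : Fin m → ℤ, ∑ i, (l i).natAbs ≤ s ∧ ∑ i, l i • a i = g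

section
variable {G : Type*} [AddCommGroup G]

/-- Uniqueness half, for two generators. -/
def Uni (s : ℕ) (a b : G) : Prop := ∀ x y x' y' : ℤ, x.natAbs + y.natAbs ≤ s →
  x'.natAbs + y'.natAbs ≤ s → x • a + y • b = x' • a + y' • b → x = x' ∧ y = y'

/-- Existence half, for two generators. -/
def Exi (s : ℕ) (a b : G) : Prop := ∀ g : G, ∃ x y : ℤ, x.natAbs + y.natAbs ≤ s ∧ x • a + y • b = g

theorem split (s : ℕ) (u v : ℤ) (h : u.natAbs + v.natAbs ≤ 2 * s) :
    ∃ x y : ℤ, x.natAbs + y.natAbs ≤ s ∧ (x - u).natAbs + (y - v).natAbs ≤ s := by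
  by_cases h1 : u.natAbs ≤ s
  · by_cases h2 : v.natAbs ≤ s - u.natAbs
    · exact ⟨u, v, by omega, by omega⟩
    · by_cases h3 : 0 ≤ v
      · exact ⟨u, (s : ℤ) - u.natAbs, by omega, by omega⟩
      · exact ⟨u, -((s : ℤ) - u.natAbs), by omega, by omega⟩
  · by_cases h3 : 0 ≤ u
    · exact ⟨s, 0, by omega, by omega⟩
    · exact ⟨-(s : ℤ), 0, by omega, by omega⟩

theorem far {s : ℕ} {a b : G} (hU : Uni s a b) (u v : ℤ) (h0 : u • a + v • b = 0)
    (h : u.natAbs + v.natAbs ≤ 2 * s) : u = 0 ∧ v = 0 := by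
  obtain ⟨x, y, h1, h2⟩ := split s u v h
  have h3 : x • a + y • b = (x - u) • a + (y - v) • b := by
    have : (x - u) • a + (y - v) • b = x • a + y • b - (u • a + v • b) := by
      rw [sub_smul, sub_smul]; abel
    rw [this, h0, sub_zero]
  have := hU x y (x - u) (y - v) h1 h2 h3
  constructor
  · have := this.1; omega
  · have := this.2; omega

theorem geo {s : ℕ} {a b : G} (hU : Uni s a b) (hE : Exi s a b) (p q : ℤ)
    (hpq : p.natAbs + q.natAbs = s + 1) :
    ∃ u v : ℤ, u • a + v • b = 0 ∧ u.natAbs + v.natAbs = 2 * s + 1 ∧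
      (p - u).natAbs + (q - v).natAbs = s := by
  obtain ⟨x, y, h1, h2⟩ := hE (p • a + q • b)
  have h0 : (p - x) • a + (q - y) • b = 0 := by
    have : (p - x) • a + (q - y) • b = (p • a + q • b) - (x • a + y • b) := by
      rw [sub_smul, sub_smul]; abel
    rw [this, h2, sub_self]
  have h3 : 2 * s < (p - x).natAbs + (q - y).natAbs := by
    by_contra hcon
    have := far hU _ _ h0 (by omega)
    omega
  exact ⟨p - x, q - y, h0, by omega, by omega⟩

theorem quad {s : ℕ} (hs : 1 ≤ s) {a b : G} (hU : Uni s a b) (hE : Exi s a b) :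
    (s : ℤ) • a + ((s : ℤ) + 1) • b = 0 ∨ ((s : ℤ) + 1) • a + (s : ℤ) • b = 0 := by
  obtain ⟨u, v, h0, h1, h2⟩ := geo hU hE 1 s (by omega)
  have hu : 1 ≤ u := by omega
  have hv : (s : ℤ) ≤ v := by omega
  have huv : u + v = 2 * s + 1 := by omega
  by_cases hus : (s : ℤ) ≤ u
  · have : u = s ∨ u = s + 1 := by omega
    rcases this with h | h
    · left
      have hv' : v = (s : ℤ) + 1 := by omega
      rw [h, hv'] at h0
      exact h0
    · right
      have hv' : v = (s : ℤ) := by omega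
      rw [h, hv'] at h0
      exact h0
  · exfalso
    obtain ⟨u', v', h0', h1', h2'⟩ := geo hU hE (u + 1) (s - u) (by omega)
    have hu' : u + 1 ≤ u' := by omega
    have hv' : (s : ℤ) - u ≤ v' := by omega
    have huv' : u' + v' = 2 * s + 1 := by omega
    have hd : (u' - u) • a + (v' - v) • b = 0 := by
      have : (u' - u) • a + (v' - v) • b = (u' • a + v' • b) - (u • a + v • b) := by
        rw [sub_smul, sub_smul]; abel
      rw [this, h0, h0', sub_self]
    have hfar : ¬ ((u' - u).natAbs + (v' - v).natAbs ≤ 2 * s) := by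
      intro hh
      have := far hU _ _ hd hh
      omega
    have he : u' = u + s + 1 := by omega
    have he' : v' - v = -((s : ℤ) + 1) := by omega
    have he2 : u' - u = (s : ℤ) + 1 := by omega
    rw [he', he2] at hd
    obtain ⟨x, y, k0, k1, k2⟩ := geo hU hE 1 (-(s : ℤ)) (by omega)
    have hx : 1 ≤ x := by omega
    have hy : y ≤ -(s : ℤ) := by omega
    have hk : (x - (s + 1)) • a + (y - (-((s : ℤ) + 1))) • b = 0 := by
      have : (x - (s + 1)) • a + (y - (-((s : ℤ) + 1))) • b =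
          (x • a + y • b) - (((s : ℤ) + 1) • a + (-((s : ℤ) + 1)) • b) := by
        rw [sub_smul, sub_smul]; abel
      rw [this, k0, hd, sub_self]
    have := far hU _ _ hk (by omega)
    omega

/-- Every integer is `(s + 1) x - s y` modulo `2 s ^ 2 + 2 s + 1` with `|x| + |y| ≤ s`. -/
theorem cover (s : ℕ) (m : ℤ) : ∃ x y t : ℤ, x.natAbs + y.natAbs ≤ s ∧
    m = ((s : ℤ) + 1) * x - s * y + (2 * s ^ 2 + 2 * s + 1) * t := by
  have hs0 : (0 : ℤ) ≤ s := Int.natCast_nonneg s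
  set N : ℤ := 2 * (s : ℤ) ^ 2 + 2 * s + 1 with hN
  have hNpos : 0 < N := by positivity
  -- centred remainder
  set t : ℤ := (m + (s ^ 2 + s)) / N with ht
  set r : ℤ := (m + (s ^ 2 + s)) % N with hr
  have hr0 : 0 ≤ r := Int.emod_nonneg _ hNpos.ne'
  have hr1 : r < N := Int.emod_lt_of_pos _ hNpos
  have hrt : N * t + r = m + (s ^ 2 + s) := Int.mul_ediv_add_emod _ _
  set w : ℤ := r - (s ^ 2 + s) with hw
  have hw1 : -((s : ℤ) ^ 2 + s) ≤ w := by omega
  have hw2 : w ≤ (s : ℤ) ^ 2 + s := by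
    have : r ≤ N - 1 := by omega
    rw [hw]
    linarith
  have hd : (0 : ℤ) < 2 * s + 1 := by omega
  set j : ℤ := (2 * w + s) / (2 * s + 1) with hj
  have e1 : (2 * (s : ℤ) + 1) * j + (2 * w + s) % (2 * s + 1) = 2 * w + s := Int.mul_ediv_add_emod _ _
  have e2 : 0 ≤ (2 * w + s) % (2 * (s : ℤ) + 1) := Int.emod_nonneg _ hd.ne'
  have e3 : (2 * w + s) % (2 * (s : ℤ) + 1) < 2 * s + 1 := Int.emod_lt_of_pos _ hd
  have hA1 : -(s : ℤ) ≤ 2 * w - (2 * s + 1) * j := by linarith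
  have hA2 : 2 * w - (2 * s + 1) * j ≤ s := by linarith
  have hj1 : j ≤ s := by
    by_contra hcon
    have : (s : ℤ) + 1 ≤ j := by omega
    nlinarith
  have hj2 : -(s : ℤ) ≤ j := by
    by_contra hcon
    have : j ≤ -(s : ℤ) - 1 := by omega
    nlinarith
  refine ⟨w - s * j, w - s * j - j, t, ?_, ?_⟩
  · have g1 : -(s : ℤ) ≤ (w - s * j) + (w - s * j - j) := by linarith
    have g2 : (w - s * j) + (w - s * j - j) ≤ s := by linarith
    generalize w - s * j = X at g1 g2 ⊢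
    omega
  · have : m = N * t + w := by rw [hw]; linarith
    rw [this]
    ring

theorem order_of {s : ℕ} {a b : G} (hU : Uni s a b) (c : G)
    (ha : a = ((s : ℤ) + 1) • c) (hb : b = -((s : ℤ) • c))
    (hN : (2 * (s : ℤ) ^ 2 + 2 * s + 1) • c = 0) (m : ℤ) (hm : m • c = 0) :
    (2 * (s : ℤ) ^ 2 + 2 * s + 1) ∣ m := by
  obtain ⟨x, y, t, h1, h2⟩ := cover s m
  have h3 : x • a + y • b = (((s : ℤ) + 1) * x - s * y) • c := by
    rw [ha, hb, smul_smul, smul_neg, smul_smul, ← sub_eq_add_neg, ← sub_smul]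
    congr 1
    ring
  have h4 : (((s : ℤ) + 1) * x - s * y) • c = 0 := by
    have h5 : m • c = (((s : ℤ) + 1) * x - s * y) • c + (t * (2 * (s : ℤ) ^ 2 + 2 * s + 1)) • c := by
      rw [← add_smul]
      congr 1
      rw [h2]; ring
    rw [mul_smul, hN, smul_zero, add_zero] at h5
    rw [← h5, hm]
  have h6 := hU x y 0 0 h1 (by simp) (by rw [h3, h4]; simp)
  rw [h6.1, h6.2] at h2
  exact ⟨t, by rw [h2]; ring⟩

/-- The structure theorem for the pair `(a, b)`, with the two names fixed. -/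
theorem core {s : ℕ} {a b : G} (hU : Uni s a b) (hE : Exi s a b)
    (h1 : (s : ℤ) • a + ((s : ℤ) + 1) • b = 0) (h2 : ((s : ℤ) + 1) • a - (s : ℤ) • b = 0) :
    ∃ e : G ≃+ ZMod (2 * s ^ 2 + 2 * s + 1), e a = (s : ZMod (2 * s ^ 2 + 2 * s + 1)) + 1 ∧
      e b = -(s : ZMod (2 * s ^ 2 + 2 * s + 1)) := by
  obtain ⟨c, hc⟩ : ∃ c : G, c = a + b := ⟨_, rfl⟩
  have hb : b = -((s : ℤ) • c) := by
    have : (s : ℤ) • c + b = 0 := by
      rw [hc, smul_add, ← h1, add_smul, one_smul]; abel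
    exact (neg_eq_of_add_eq_zero_right this).symm
  have ha : a = ((s : ℤ) + 1) • c := by
    have : a = c - b := by rw [hc]; abel
    rw [this, add_smul, one_smul, hb]
    abel
  have hN : (2 * (s : ℤ) ^ 2 + 2 * s + 1) • c = 0 := by
    have e : (2 * (s : ℤ) ^ 2 + 2 * s + 1) • c =
        ((s : ℤ) + 1) • (((s : ℤ) + 1) • c) - (s : ℤ) • (-((s : ℤ) • c)) := by
      rw [smul_neg, sub_neg_eq_add, smul_smul, smul_smul, ← add_smul]
      congr 1
      ring
    rw [e, ← ha, ← hb, h2]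
  have hord := order_of hU c ha hb hN
  let F : ℤ →+ G := zmultiplesHom G c
  have hF : ∀ m : ℤ, F m = m • c := fun m => rfl
  have hF0 : F ((2 * s ^ 2 + 2 * s + 1 : ℕ) : ℤ) = 0 := by
    rw [hF]; push_cast; exact hN
  let φ : ZMod (2 * s ^ 2 + 2 * s + 1) →+ G := ZMod.lift _ ⟨F, hF0⟩
  have hφ : ∀ m : ℤ, φ (m : ZMod (2 * s ^ 2 + 2 * s + 1)) = m • c := by
    intro m
    exact ZMod.lift_coe _ _ _
  have hinj : Function.Injective φ := by
    rw [ZMod.lift_injective]
    intro m hm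
    rw [ZMod.intCast_zmod_eq_zero_iff_dvd]
    have := hord m hm
    push_cast
    exact this
  have hsurj : Function.Surjective φ := by
    intro g
    obtain ⟨x, y, -, hg⟩ := hE g
    refine ⟨(((s : ℤ) + 1) * x - s * y : ℤ), ?_⟩
    rw [hφ, ← hg]
    conv_rhs => rw [ha, hb]
    rw [smul_smul, smul_neg, smul_smul, ← sub_eq_add_neg, ← sub_smul]
    congr 1
    ring
  let E : ZMod (2 * s ^ 2 + 2 * s + 1) ≃+ G := AddEquiv.ofBijective φ ⟨hinj, hsurj⟩
  refine ⟨E.symm, ?_, ?_⟩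
  · rw [AddEquiv.symm_apply_eq]
    have := hφ ((s : ℤ) + 1)
    push_cast at this
    change a = φ _
    rw [this]; exact ha
  · rw [AddEquiv.symm_apply_eq]
    have := hφ (-(s : ℤ))
    push_cast at this
    change b = φ _
    rw [this, neg_smul]; exact hb

/-- The pair `(s + 1, - s)` of the cyclic group of order `2 s ^ 2 + 2 s + 1`: existence. -/
theorem conv_exi {s : ℕ} {a b : G} (e : G ≃+ ZMod (2 * s ^ 2 + 2 * s + 1))
    (ha : e a = (s : ZMod (2 * s ^ 2 + 2 * s + 1)) + 1)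
    (hb : e b = -(s : ZMod (2 * s ^ 2 + 2 * s + 1))) : Exi s a b := by
  intro g
  obtain ⟨m, hm⟩ := ZMod.intCast_surjective (e g)
  obtain ⟨x, y, t, h1, h2⟩ := cover s m
  refine ⟨x, y, h1, ?_⟩
  apply e.injective
  rw [map_add, map_zsmul, map_zsmul, ha, hb, ← hm, h2]
  have hN : ((2 * s ^ 2 + 2 * s + 1 : ℕ) : ZMod (2 * s ^ 2 + 2 * s + 1)) = 0 :=
    ZMod.natCast_self _
  push_cast at hN
  push_cast
  rw [hN, zero_mul, add_zero, zsmul_eq_mul, zsmul_eq_mul]
  ring

/-- The pair `(s + 1, - s)` of the cyclic group of order `2 s ^ 2 + 2 s + 1`: uniqueness. -/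
theorem conv_uni {s : ℕ} (hs : 1 ≤ s) {a b : G} (e : G ≃+ ZMod (2 * s ^ 2 + 2 * s + 1))
    (ha : e a = (s : ZMod (2 * s ^ 2 + 2 * s + 1)) + 1)
    (hb : e b = -(s : ZMod (2 * s ^ 2 + 2 * s + 1))) : Uni s a b := by
  intro x y x' y' h1 h2 h3
  have h4 := congrArg e h3
  rw [map_add, map_add, map_zsmul, map_zsmul, map_zsmul, map_zsmul, ha, hb, zsmul_eq_mul,
    zsmul_eq_mul, zsmul_eq_mul, zsmul_eq_mul] at h4
  have h5 : (((((s : ℤ) + 1) * (x - x') - s * (y - y') : ℤ)) : ZMod (2 * s ^ 2 + 2 * s + 1)) = 0 := by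
    push_cast
    linear_combination h4
  rw [ZMod.intCast_zmod_eq_zero_iff_dvd] at h5
  have hX : (x - x').natAbs + (y - y').natAbs ≤ 2 * s := by omega
  obtain ⟨X, hXe⟩ : ∃ X, X = x - x' := ⟨_, rfl⟩
  obtain ⟨Y, hYe⟩ : ∃ Y, Y = y - y' := ⟨_, rfl⟩
  rw [← hXe, ← hYe] at h5 hX
  have hs0 : (1 : ℤ) ≤ s := by exact_mod_cast hs
  have b1 : X + Y ≤ 2 * s := by omega
  have b2 : X - Y ≤ 2 * s := by omega
  have b3 : -X + Y ≤ 2 * s := by omega
  have b4 : -X - Y ≤ 2 * s := by omega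
  have c1 : |((s : ℤ) + 1) * X - s * Y| < ((2 * s ^ 2 + 2 * s + 1 : ℕ) : ℤ) := by
    push_cast
    rw [abs_lt]
    constructor
    · nlinarith
    · nlinarith
  have h6 : ((s : ℤ) + 1) * X - s * Y = 0 := Int.eq_zero_of_abs_lt_dvd h5 c1
  have hXk : X = s * (Y - X) := by linarith
  have hYk : Y = (s + 1) * (Y - X) := by linarith
  have hk : Y - X = 0 := by
    by_contra hne
    rcases lt_or_gt_of_ne hne with h | h
    · have : Y - X ≤ -1 := by omega
      nlinarith
    · have : 1 ≤ Y - X := by omega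
      nlinarith
  rw [hk, mul_zero] at hXk hYk
  constructor
  · omega
  · omega

theorem perfect_of {s : ℕ} (hs : 1 ≤ s) {a : Fin 2 → G} (hU : Uni s (a 0) (a 1))
    (hE : Exi s (a 0) (a 1)) : IsPerfect s a := by
  constructor
  · intro i j hij
    have key : a 0 ≠ a 1 := by
      intro h
      have := hU 1 0 0 1 (by simpa using hs) (by simpa using hs) (by simp [h])
      omega
    fin_cases i <;> fin_cases j
    · rfl
    · exact absurd hij key
    · exact absurd hij.symm key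
    · rfl
  · intro g
    obtain ⟨x, y, h1, h2⟩ := hE g
    refine ⟨![x, y], ⟨by simp [Fin.sum_univ_two]; exact h1, by simp [Fin.sum_univ_two]; exact h2⟩, ?_⟩
    rintro l ⟨h3, h4⟩
    rw [Fin.sum_univ_two] at h3 h4
    have := hU (l 0) (l 1) x y h3 h1 (by rw [h4, h2])
    funext i
    fin_cases i
    · exact this.1
    · exact this.2

theorem swap_uni {s : ℕ} {p q : G} (hU : Uni s p q) : Uni s q p := by
  intro x y x' y' h1 h2 h3
  have := hU y x y' x' (by omega) (by omega) (by rw [add_comm, h3, add_comm])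
  omega

theorem swap_exi {s : ℕ} {p q : G} (hE : Exi s p q) : Exi s q p := by
  intro g
  obtain ⟨x, y, h1, h2⟩ := hE g
  exact ⟨y, x, by omega, by rw [add_comm]; exact h2⟩

end

theorem forward (G : Type) [AddCommGroup G] (s : ℕ) (hs : 1 ≤ s) (a : Fin 2 → G)
    (h : IsPerfect s a) :
    ∃ e : G ≃+ ZMod (2 * s ^ 2 + 2 * s + 1),
      (e (a 0) = (s : ZMod (2 * s ^ 2 + 2 * s + 1)) + 1 ∧
        e (a 1) = -(s : ZMod (2 * s ^ 2 + 2 * s + 1))) ∨
      (e (a 1) = (s : ZMod (2 * s ^ 2 + 2 * s + 1)) + 1 ∧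
        e (a 0) = -(s : ZMod (2 * s ^ 2 + 2 * s + 1))) := by
  obtain ⟨-, h⟩ := h
  have hE : Exi s (a 0) (a 1) := by
    intro g
    obtain ⟨l, ⟨h1, h2⟩, -⟩ := h g
    rw [Fin.sum_univ_two] at h1 h2
    exact ⟨l 0, l 1, h1, h2⟩
  have hU : Uni s (a 0) (a 1) := by
    intro x y x' y' h1 h2 h3
    obtain ⟨l, -, h4⟩ := h (x • a 0 + y • a 1)
    have h5 := h4 ![x, y] (by simp [Fin.sum_univ_two]; exact h1)
    have h6 := h4 ![x', y'] (by simp [Fin.sum_univ_two]; exact ⟨h2, h3.symm⟩)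
    have h7 := h5.trans h6.symm
    have e0 := congrFun h7 0
    have e1 := congrFun h7 1
    simp at e0 e1
    exact ⟨e0, e1⟩
  generalize a 0 = p at hE hU ⊢
  generalize a 1 = q at hE hU ⊢
  have hU' : Uni s p (-q) := by
    intro x y x' y' h1 h2 h3
    have := hU x (-y) x' (-y') (by omega) (by omega) (by
      rw [neg_smul, neg_smul, ← smul_neg, ← smul_neg]; exact h3)
    omega
  have hE' : Exi s p (-q) := by
    intro g
    obtain ⟨x, y, h1, h2⟩ := hE g
    exact ⟨x, -y, by omega, by rw [smul_neg, neg_smul, neg_neg]; exact h2⟩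
  have hUs : Uni s q p := by
    intro x y x' y' h1 h2 h3
    have := hU y x y' x' (by omega) (by omega) (by rw [add_comm, h3, add_comm])
    omega
  have hEs : Exi s q p := by
    intro g
    obtain ⟨x, y, h1, h2⟩ := hE g
    exact ⟨y, x, by omega, by rw [add_comm]; exact h2⟩
  rcases quad hs hU hE with h1 | h1 <;> rcases quad hs hU' hE' with h2 | h2
  · exfalso
    rw [smul_neg] at h2
    have h3 : (2 * (s : ℤ)) • p + (0 : ℤ) • q = 0 := by
      have : (2 * (s : ℤ)) • p + (0 : ℤ) • q = ((s : ℤ) • p + ((s : ℤ) + 1) • q) +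
          ((s : ℤ) • p + -(((s : ℤ) + 1) • q)) := by
        rw [two_mul, add_smul, zero_smul]; abel
      rw [this, h1, h2, add_zero]
    have := far hU _ _ h3 (by omega)
    omega
  · rw [smul_neg, ← sub_eq_add_neg] at h2
    obtain ⟨e, h3, h4⟩ := core hU hE h1 h2
    exact ⟨e, Or.inl ⟨h3, h4⟩⟩
  · rw [smul_neg, ← sub_eq_add_neg] at h2
    obtain ⟨e, h3, h4⟩ := core hUs hEs (by rw [add_comm]; exact h1)
      (by rw [← neg_sub, h2, neg_zero])
    exact ⟨e, Or.inr ⟨h3, h4⟩⟩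
  · exfalso
    rw [smul_neg] at h2
    have h3 : (0 : ℤ) • p + (2 * (s : ℤ)) • q = 0 := by
      have : (0 : ℤ) • p + (2 * (s : ℤ)) • q = (((s : ℤ) + 1) • p + (s : ℤ) • q) -
          (((s : ℤ) + 1) • p + -((s : ℤ) • q)) := by
        rw [two_mul, add_smul, zero_smul]; abel
      rw [this, h1, h2, sub_zero]
    have := far hU _ _ h3 (by omega)
    omega

/-- `{a 0, a 1}` is a perfect `s`-spanning set of size two (`s ≥ 1`) of the abelian group `G` if and
only if an isomorphism of `G` with the cyclic group of order `2 s ^ 2 + 2 s + 1` carries it to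
`{s + 1, - s}`. -/
theorem result (G : Type) [AddCommGroup G] (s : ℕ) (hs : 1 ≤ s) (a : Fin 2 → G) :
    IsPerfect s a ↔ ∃ e : G ≃+ ZMod (2 * s ^ 2 + 2 * s + 1),
      (e (a 0) = (s : ZMod (2 * s ^ 2 + 2 * s + 1)) + 1 ∧
        e (a 1) = -(s : ZMod (2 * s ^ 2 + 2 * s + 1))) ∨
      (e (a 1) = (s : ZMod (2 * s ^ 2 + 2 * s + 1)) + 1 ∧
        e (a 0) = -(s : ZMod (2 * s ^ 2 + 2 * s + 1))) := by
  constructor
  · exact forward G s hs a
  · rintro ⟨e, ⟨h1, h2⟩ | ⟨h1, h2⟩⟩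
    · exact perfect_of hs (conv_uni hs e h1 h2) (conv_exi e h1 h2)
    · exact perfect_of hs (swap_uni (conv_uni hs e h1 h2)) (swap_exi (conv_exi e h1 h2))

end Pool.Agent.Results.MP_684e05_nt.SizeTwo
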